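import Mathlib

set_option autoImplicit false

open Polynomial

namespace Pool.Agent.W39.FredPair

section intertwine

variable {V W : Type*} [AddCommGroup V] [Module ℂ V] [AddCommGroup W] [Module ℂ W]

lemma aeval_intertwine (ι : V →ₗ[ℂ] W) (f : Module.End ℂ V) (g : Module.End ℂ W)
    (h : ∀ x, g (ι x) = ι (f x)) (p : ℂ[X]) (x : V) :
    aeval g p (ι x) = ι (aeval f p x) := by
  induction p using Polynomial.induction_on' with
  | add p q hp hq => simp [hp, hq]
  | monomial n a =>
    have hn : ∀ n : ℕ, ∀ x, (g ^ n) (ι x) = ι ((f ^ n) x) := by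
      intro n
      induction n with
      | zero => intro x; simp
      | succ n ih =>
        intro x
        rw [pow_succ, pow_succ, Module.End.mul_apply, Module.End.mul_apply, h, ih]
    rw [aeval_monomial, aeval_monomial]
    simp only [Module.End.mul_apply, Module.algebraMap_end_apply, hn, map_smul]

end intertwine

variable {H : Type*} [NormedAddCommGroup H] [InnerProductSpace ℂ H] [CompleteSpace H]

/-- Fredholm alternative in the form used below -/
lemma surj_of_inj {C : H →L[ℂ] H} (hC : IsCompactOperator C)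
    (hinj : Function.Injective (1 + C : H →L[ℂ] H)) :
    Function.Surjective (1 + C : H →L[ℂ] H) := by
  rcases IsCompactOperator.hasEigenvalue_or_mem_resolventSet (μ := (-1 : ℂ)) hC (by norm_num) with h | h
  · exfalso
    obtain ⟨x, hx⟩ := h.exists_hasEigenvector
    have h1 : C x = (-1 : ℂ) • x := hx.apply_eq_smul
    have h2 : (1 + C : H →L[ℂ] H) x = (1 + C : H →L[ℂ] H) 0 := by
      simp [h1]
    exact hx.2 (hinj h2)
  · rw [spectrum.mem_resolventSet_iff, ContinuousLinearMap.isUnit_iff_bijective] at h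
    intro y
    obtain ⟨x, hx⟩ := h.2 (-y)
    refine ⟨x, ?_⟩
    simp only [ContinuousLinearMap.algebraMap_apply, _root_.sub_apply, neg_smul, one_smul] at hx
    simp only [_root_.add_apply, one_apply_eq_self]
    have h3 : x + C x = -(-x - C x) := by abel
    rw [h3, hx, neg_neg]

omit [CompleteSpace H] in
lemma finite_ker {C : H →L[ℂ] H} (hC : IsCompactOperator C) :
    FiniteDimensional ℂ (LinearMap.ker (1 + C : H →L[ℂ] H).toLinearMap) := by
  set N := LinearMap.ker (1 + C : H →L[ℂ] H).toLinearMap with hN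
  have hcl : IsClosed (N : Set H) := (1 + C : H →L[ℂ] H).isClosed_ker
  have h1 : IsCompactOperator (fun x : N => -(C (x : H))) := by
    have h2 : IsCompactOperator (C ∘ N.subtypeL) := hC.comp_clm N.subtypeL
    exact h2.neg
  have hmem : ∀ x : N, -(C (x : H)) = (x : H) := by
    intro x
    have h3 : (x : H) + C (x : H) = 0 := LinearMap.mem_ker.1 x.2
    rw [eq_comm, ← sub_eq_zero, sub_neg_eq_add]
    exact h3
  have h4 : IsCompactOperator (fun x : N => (⟨-(C (x : H)), by rw [hmem]; exact x.2⟩ : N)) :=
    h1.codRestrict (fun x => by rw [hmem]; exact x.2) hcl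
  have h5 : (fun x : N => (⟨-(C (x : H)), by rw [hmem]; exact x.2⟩ : N)) = id := by
    funext x
    exact Subtype.ext (hmem x)
  rw [h5] at h4
  exact FiniteDimensional.of_isCompactOperator_id h4

/-- a surjective operator on a Hilbert space has a bounded right inverse -/
lemma exists_right_inv {M : H →L[ℂ] H} (hM : Function.Surjective M) :
    ∃ R : H →L[ℂ] H, ∀ y, M (R y) = y := by
  set N := LinearMap.ker M.toLinearMap with hN
  have hcl : IsClosed (N : Set H) := M.isClosed_ker
  have : CompleteSpace N := hcl.completeSpace_coe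
  let e : Nᗮ →L[ℂ] H := M ∘L Nᗮ.subtypeL
  have hinj : LinearMap.ker e.toLinearMap = ⊥ := by
    rw [LinearMap.ker_eq_bot']
    intro x hx
    have h1 : (x : H) ∈ N := LinearMap.mem_ker.2 hx
    have h2 : (x : H) = 0 := by
      have h3 := Submodule.inner_right_of_mem_orthogonal h1 x.2
      exact inner_self_eq_zero.1 h3
    exact Subtype.ext h2
  have hsurj : LinearMap.range e.toLinearMap = ⊤ := by
    rw [LinearMap.range_eq_top]
    intro y
    obtain ⟨x, hx⟩ := hM y
    refine ⟨⟨x - N.starProjection x, ?_⟩, ?_⟩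
    · exact Submodule.sub_starProjection_mem_orthogonal x
    · have h4 : M (N.starProjection x) = 0 :=
        LinearMap.mem_ker.1 (Submodule.starProjection_apply_mem N x)
      change M (x - N.starProjection x) = y
      rw [map_sub, h4, sub_zero, hx]
  let E := ContinuousLinearEquiv.ofBijective e hinj hsurj
  refine ⟨Nᗮ.subtypeL ∘L (E.symm : H →L[ℂ] Nᗮ), fun y => ?_⟩
  exact E.apply_symm_apply y

lemma inj_of_surj {C : H →L[ℂ] H} (hC : IsCompactOperator C)
    (hsurj : Function.Surjective (1 + C : H →L[ℂ] H)) :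
    Function.Injective (1 + C : H →L[ℂ] H) := by
  obtain ⟨R, hR⟩ := exists_right_inv hsurj
  have h1 : ∀ y, R y + C (R y) = y := fun y => hR y
  have hR2 : R = 1 + (-(C ∘L R)) := by
    ext y
    have := h1 y
    simp only [_root_.add_apply, one_apply_eq_self, _root_.neg_apply,
      ContinuousLinearMap.comp_apply]
    rw [← sub_eq_add_neg, eq_sub_iff_add_eq]
    exact this
  have hCR : IsCompactOperator (-(C ∘L R) : H →L[ℂ] H) := by
    have h2 : IsCompactOperator (C ∘L R : H →L[ℂ] H) := hC.comp_clm R
    exact h2.neg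
  have hRinj : Function.Injective (1 + (-(C ∘L R)) : H →L[ℂ] H) := by
    rw [← hR2]
    intro x y hxy
    rw [← hR x, ← hR y, hxy]
  have hRsurj := surj_of_inj hCR hRinj
  rw [← hR2] at hRsurj
  intro x y hxy
  obtain ⟨x', rfl⟩ := hRsurj x
  obtain ⟨y', rfl⟩ := hRsurj y
  rw [hR, hR] at hxy
  rw [hxy]

/-- the finite rank correction of `1 + C` by a map from a finite-dimensional subspace -/
lemma correction {C : H →L[ℂ] H} (hC : IsCompactOperator C) (N W : Submodule ℂ H)
    [FiniteDimensional ℂ N] (g : N →ₗ[ℂ] W) :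
    ∃ C' : H →L[ℂ] H, IsCompactOperator C' ∧ ∃ P : H →L[ℂ] N, (∀ n : N, P (n : H) = n) ∧
      ∀ x, (1 + C' : H →L[ℂ] H) x = (1 + C : H →L[ℂ] H) x + (g (P x) : H) := by
  let P : H →L[ℂ] N := N.orthogonalProjectionOnto
  let gg : N →L[ℂ] H := LinearMap.toContinuousLinearMap (W.subtype ∘ₗ g)
  have hgg : IsCompactOperator gg := by
    have : ProperSpace N := FiniteDimensional.proper ℂ N
    have : LocallyCompactSpace N := inferInstance
    exact isCompactOperator_of_locallyCompactSpace_rng gg
  have hF : IsCompactOperator (gg ∘L P : H →L[ℂ] H) := hgg.comp_clm P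
  refine ⟨C + gg ∘L P, hC.add hF, P, ?_, ?_⟩
  · intro n
    exact Submodule.orthogonalProjectionOnto_mem_subspace_eq_self n
  · intro x
    simp only [_root_.add_apply, one_apply_eq_self, ContinuousLinearMap.comp_apply]
    rw [add_assoc]
    rfl

/-- index zero for compact perturbations of the identity -/
lemma index_zero {C : H →L[ℂ] H} (hC : IsCompactOperator C) :
    FiniteDimensional ℂ (H ⧸ LinearMap.range (1 + C : H →L[ℂ] H).toLinearMap) ∧
    Module.finrank ℂ (LinearMap.ker (1 + C : H →L[ℂ] H).toLinearMap)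
      = Module.finrank ℂ (H ⧸ LinearMap.range (1 + C : H →L[ℂ] H).toLinearMap) := by
  have hfin := finite_ker hC
  set M : H →L[ℂ] H := 1 + C with hM
  set N := LinearMap.ker M.toLinearMap with hN
  set R := LinearMap.range M.toLinearMap with hR
  obtain ⟨W, hW⟩ := R.exists_isCompl
  -- injective maps into the complement are surjective
  have hinj : ∀ g : N →ₗ[ℂ] W, Function.Injective g → Function.Surjective g := by
    intro g hg
    obtain ⟨C', hC', P, hP, hCP⟩ := correction hC N W g
    have hinj' : Function.Injective (1 + C' : H →L[ℂ] H) := by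
      rw [injective_iff_map_eq_zero]
      intro x hx
      rw [hCP] at hx
      have h1 : M x ∈ R := LinearMap.mem_range_self _ x
      have h2 : (g (P x) : H) ∈ W := (g (P x)).2
      have h3 : M x = -(g (P x) : H) := eq_neg_of_add_eq_zero_left hx
      have h4 : M x = 0 := by
        have h5 : M x ∈ R ⊓ W := ⟨h1, by rw [h3]; exact W.neg_mem h2⟩
        rw [hW.inf_eq_bot] at h5
        exact h5
      have h6 : g (P x) = 0 := by
        apply Subtype.ext
        rw [h4] at h3
        exact (neg_eq_zero.1 h3.symm)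
      have h7 : P x = 0 := hg (by rw [h6, map_zero])
      have h8 : x ∈ N := LinearMap.mem_ker.2 h4
      have h9 := hP ⟨x, h8⟩
      have h10 : (⟨x, h8⟩ : N) = 0 := by rw [← h9]; exact h7
      exact congrArg Subtype.val h10
    have hsurj' := surj_of_inj hC' hinj'
    intro w
    obtain ⟨x, hx⟩ := hsurj' w
    rw [hCP] at hx
    refine ⟨P x, ?_⟩
    have h1 : M x ∈ R := LinearMap.mem_range_self _ x
    have h3 : M x = (w : H) - (g (P x) : H) := by rw [← hx]; abel
    have h4 : M x = 0 := by
      have h5 : M x ∈ R ⊓ W := ⟨h1, by rw [h3]; exact W.sub_mem w.2 (g (P x)).2⟩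
      rw [hW.inf_eq_bot] at h5
      exact h5
    apply Subtype.ext
    rw [h4] at h3
    exact (sub_eq_zero.1 h3.symm).symm
  have hsurj : ∀ g : N →ₗ[ℂ] W, Function.Surjective g → Function.Injective g := by
    intro g hg
    obtain ⟨C', hC', P, hP, hCP⟩ := correction hC N W g
    have hsurj' : Function.Surjective (1 + C' : H →L[ℂ] H) := by
      intro y
      have hy : y ∈ R ⊔ W := by rw [hW.sup_eq_top]; trivial
      obtain ⟨r, hr, w, hw, rfl⟩ := Submodule.mem_sup.1 hy
      obtain ⟨x, rfl⟩ := hr
      obtain ⟨n, hn⟩ := hg ⟨w, hw⟩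
      refine ⟨x - (P x : H) + n, ?_⟩
      rw [hCP]
      have h1 : M (P x : H) = 0 := LinearMap.mem_ker.1 (P x).2
      have h2 : M (n : H) = 0 := LinearMap.mem_ker.1 n.2
      have h3 : P (x - (P x : H) + n) = n := by
        rw [map_add, map_sub, hP, hP, sub_self, zero_add]
      rw [h3, hn, map_add, map_sub, h1, h2, sub_zero, add_zero]
      rfl
    have hinj' := inj_of_surj hC' hsurj'
    rw [injective_iff_map_eq_zero]
    intro n hn
    have h1 : (1 + C' : H →L[ℂ] H) (n : H) = (1 + C' : H →L[ℂ] H) 0 := by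
      rw [hCP, hP, hn, map_zero]
      have h2 : M (n : H) = 0 := LinearMap.mem_ker.1 n.2
      rw [h2]; simp
    exact Subtype.ext (hinj' h1)
  let eq : (H ⧸ R) ≃ₗ[ℂ] W := Submodule.quotientEquivOfIsCompl R W hW
  -- compare dimensions
  rcases lt_trichotomy (Module.rank ℂ N) (Module.rank ℂ W) with hlt | heq | hgt
  · exfalso
    obtain ⟨g, hg⟩ := Module.Free.exists_linearMap_injective_of_rank_lt (R := ℂ) hlt
    have h1 := hinj g hg
    have h2 : Module.rank ℂ N = Module.rank ℂ W :=
      LinearEquiv.rank_eq (LinearEquiv.ofBijective g ⟨hg, h1⟩)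
    exact absurd h2 hlt.ne
  · have e1 : Nonempty (N ≃ₗ[ℂ] W) := by
      exact Module.nonempty_linearEquiv_iff_rank_eq.2 heq
    obtain ⟨e1⟩ := e1
    have hWfin : FiniteDimensional ℂ W := LinearEquiv.finiteDimensional e1
    refine ⟨LinearEquiv.finiteDimensional eq.symm, ?_⟩
    rw [LinearEquiv.finrank_eq eq, LinearEquiv.finrank_eq e1]
  · exfalso
    obtain ⟨g, hg⟩ := Module.Free.exists_linearMap_injective_of_rank_lt (R := ℂ) hgt
    obtain ⟨g', hg'⟩ := LinearMap.exists_leftInverse_of_injective g (LinearMap.ker_eq_bot.2 hg)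
    have h1 : Function.Surjective g' := by
      intro w
      exact ⟨g w, LinearMap.congr_fun hg' w⟩
    have h2 := hsurj g' h1
    have h3 : Module.rank ℂ N = Module.rank ℂ W :=
      LinearEquiv.rank_eq (LinearEquiv.ofBijective g' ⟨h2, h1⟩)
    exact absurd h3 hgt.ne'

end Pool.Agent.W39.FredPair
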