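import Mathlib
import Pool.Agent.W39.FredPair.Compact

set_option autoImplicit false

open Polynomial

namespace Pool.Agent.W39.FredPair

variable {H : Type*} [NormedAddCommGroup H] [InnerProductSpace ℂ H] [CompleteSpace H]

/-- A bounded operator is Fredholm: closed range, finite-dimensional kernel and cokernel. -/
def IsFredholmOp (T : H →L[ℂ] H) : Prop :=
  IsClosed (LinearMap.range T.toLinearMap : Set H) ∧
  FiniteDimensional ℂ (LinearMap.ker T.toLinearMap) ∧
  FiniteDimensional ℂ (H ⧸ LinearMap.range T.toLinearMap)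

omit [CompleteSpace H] in
lemma compact_of_finrange (N : Submodule ℂ H) [FiniteDimensional ℂ N] (P : H →L[ℂ] N)
    (g : N →L[ℂ] H) : IsCompactOperator (g ∘L P : H →L[ℂ] H) := by
  have : ProperSpace N := FiniteDimensional.proper ℂ N
  have : LocallyCompactSpace N := inferInstance
  have hgg : IsCompactOperator g := isCompactOperator_of_locallyCompactSpace_rng g
  exact hgg.comp_clm P

/-- quasi-inverse modulo compact operators -/
lemma exists_quasi_inv {T : H →L[ℂ] H} (hT : IsFredholmOp T) :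
    ∃ (Q C₁ C₂ : H →L[ℂ] H), IsCompactOperator C₁ ∧ IsCompactOperator C₂ ∧
      T ∘L Q = 1 + C₁ ∧ Q ∘L T = 1 + C₂ := by
  obtain ⟨hR, hN, hW⟩ := hT
  set N := LinearMap.ker T.toLinearMap with hNd
  set R := LinearMap.range T.toLinearMap with hRd
  have hNcl : IsClosed (N : Set H) := T.isClosed_ker
  have : CompleteSpace N := hNcl.completeSpace_coe
  have : CompleteSpace R := hR.completeSpace_coe
  have hRo : FiniteDimensional ℂ Rᗮ :=
    LinearEquiv.finiteDimensional (Submodule.quotientEquivOfIsCompl R Rᗮ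
      R.isCompl_orthogonal)
  let e : Nᗮ →L[ℂ] R := (T ∘L Nᗮ.subtypeL).codRestrict R (fun x => LinearMap.mem_range_self _ _)
  have hinj : LinearMap.ker e.toLinearMap = ⊥ := by
    rw [LinearMap.ker_eq_bot']
    intro x hx
    have h0 : T (x : H) = 0 := congrArg Subtype.val hx
    have h1 : (x : H) ∈ N := LinearMap.mem_ker.2 h0
    have h2 : (x : H) = 0 := by
      have h3 := Submodule.inner_right_of_mem_orthogonal h1 x.2
      exact inner_self_eq_zero.1 h3
    exact Subtype.ext h2
  have hTN : ∀ x, T (N.starProjection x) = 0 := fun x =>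
    LinearMap.mem_ker.1 (Submodule.starProjection_apply_mem N x)
  have hsurj : LinearMap.range e.toLinearMap = ⊤ := by
    rw [LinearMap.range_eq_top]
    rintro ⟨y, x, rfl⟩
    refine ⟨⟨x - N.starProjection x, Submodule.sub_starProjection_mem_orthogonal x⟩, ?_⟩
    apply Subtype.ext
    change T (x - N.starProjection x) = T x
    rw [map_sub, hTN, sub_zero]
  let E := ContinuousLinearEquiv.ofBijective e hinj hsurj
  have hE : ∀ r : R, T ((E.symm r : Nᗮ) : H) = r := fun r => by
    have := E.apply_symm_apply r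
    exact congrArg Subtype.val this
  let Q : H →L[ℂ] H := Nᗮ.subtypeL ∘L (E.symm : R →L[ℂ] Nᗮ) ∘L R.orthogonalProjectionOnto
  refine ⟨Q, -(Rᗮ.subtypeL ∘L Rᗮ.orthogonalProjectionOnto),
    -(N.subtypeL ∘L N.orthogonalProjectionOnto),
    (compact_of_finrange Rᗮ _ _).neg, (compact_of_finrange N _ _).neg, ?_, ?_⟩
  · ext x
    have h1 : T (Q x) = R.starProjection x := hE _
    have h2 : R.starProjection x + Rᗮ.starProjection x = x :=
      Submodule.starProjection_add_starProjection_orthogonal x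
    change T (Q x) = x + -(Rᗮ.starProjection x)
    rw [h1]
    nth_rewrite 2 [← h2]
    abel
  · ext x
    change Q (T x) = x + -(N.starProjection x)
    have h1 : (R.orthogonalProjectionOnto (T x) : R) = ⟨T x, LinearMap.mem_range_self _ _⟩ :=
      Submodule.orthogonalProjectionOnto_mem_subspace_eq_self
        (⟨T x, LinearMap.mem_range_self _ _⟩ : R)
    have h2 : E ⟨x - N.starProjection x, Submodule.sub_starProjection_mem_orthogonal x⟩
        = (⟨T x, LinearMap.mem_range_self _ _⟩ : R) := by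
      apply Subtype.ext
      change T (x - N.starProjection x) = T x
      rw [map_sub, hTN, sub_zero]
    have h3 : Q (T x) = ((E.symm (R.orthogonalProjectionOnto (T x)) : Nᗮ) : H) := rfl
    rw [h3, h1, ← h2, E.symm_apply_apply]
    simp [sub_eq_add_neg]

omit [CompleteSpace H] in
/-- powers of `1 + C` -/
lemma pow_one_add {C : H →L[ℂ] H} (hC : IsCompactOperator C) (n : ℕ) :
    ∃ D : H →L[ℂ] H, IsCompactOperator D ∧ (1 + C) ^ n = 1 + D := by
  induction n with
  | zero => exact ⟨0, isCompactOperator_zero, by simp⟩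
  | succ n ih =>
    obtain ⟨D, hD, h⟩ := ih
    refine ⟨C + D + D ∘L C, ?_, ?_⟩
    · exact (hC.add hD).add (hD.comp_clm C)
    · rw [pow_succ, h]
      have : D ∘L C = D * C := rfl
      rw [this]
      noncomm_ring

/-- finite ascent of `1 + C` -/
lemma finite_ascent {C : H →L[ℂ] H} (hC : IsCompactOperator C) :
    ∃ p : ℕ, ∀ x, ((1 + C) ^ (p + 1) : H →L[ℂ] H) x = 0 → ((1 + C) ^ p : H →L[ℂ] H) x = 0 := by
  by_contra hcon
  push Not at hcon
  set L : H →L[ℂ] H := 1 + C with hL
  let V : ℕ → Submodule ℂ H := fun n => LinearMap.ker (L ^ n : H →L[ℂ] H).toLinearMap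
  have hVmem : ∀ n x, x ∈ V n ↔ (L ^ n : H →L[ℂ] H) x = 0 := fun n x => LinearMap.mem_ker
  have hVcl : ∀ n, IsClosed (V n : Set H) := fun n => (L ^ n : H →L[ℂ] H).isClosed_ker
  have hVcomp : ∀ n, CompleteSpace (V n) := fun n => (hVcl n).completeSpace_coe
  have hVmono : Monotone V := by
    refine monotone_nat_of_le_succ fun n x hx => ?_
    rw [hVmem] at hx ⊢
    rw [pow_succ', mul_apply_eq_comp, hx, map_zero]
  -- unit vectors
  have hex : ∀ n, ∃ x : H, x ∈ V (n + 1) ∧ ‖x‖ = 1 ∧ ∀ z ∈ V n, 1 ≤ ‖x - z‖ := by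
    intro n
    obtain ⟨y, hy1, hy2⟩ := hcon n
    have hc := hVcomp n
    set w : H := y - (V n).starProjection y with hw
    have hwo : w ∈ (V n)ᗮ := Submodule.sub_starProjection_mem_orthogonal y
    have hwV : w ∈ V (n + 1) := by
      refine (V (n + 1)).sub_mem ((hVmem _ _).2 hy1) ?_
      exact hVmono (Nat.le_succ n) (Submodule.starProjection_apply_mem _ _)
    have hw0 : w ≠ 0 := by
      intro h0
      apply hy2
      rw [hw, sub_eq_zero] at h0
      rw [h0]
      exact (hVmem _ _).1 (Submodule.starProjection_apply_mem _ _)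
    have hwn : ‖w‖ ≠ 0 := norm_ne_zero_iff.2 hw0
    refine ⟨((‖w‖⁻¹ : ℝ) : ℂ) • w, (V (n + 1)).smul_mem _ hwV, ?_, ?_⟩
    · rw [norm_smul, Complex.norm_real, norm_inv, norm_norm, inv_mul_cancel₀ hwn]
    · intro z hz
      have hx1 : ‖((‖w‖⁻¹ : ℝ) : ℂ) • w‖ = 1 := by
        rw [norm_smul, Complex.norm_real, norm_inv, norm_norm, inv_mul_cancel₀ hwn]
      have hxo : ((‖w‖⁻¹ : ℝ) : ℂ) • w ∈ (V n)ᗮ := (V n)ᗮ.smul_mem _ hwo
      have h1 : inner ℂ z (((‖w‖⁻¹ : ℝ) : ℂ) • w) = 0 :=
        Submodule.inner_right_of_mem_orthogonal hz hxo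
      have h2 : inner ℂ (((‖w‖⁻¹ : ℝ) : ℂ) • w) z = 0 := by
        rw [← inner_conj_symm, h1, map_zero]
      have h3 : ‖((‖w‖⁻¹ : ℝ) : ℂ) • w - z‖ ^ 2 = 1 + ‖z‖ ^ 2 := by
        have h4 := @norm_sub_sq ℂ H _ _ _ (((‖w‖⁻¹ : ℝ) : ℂ) • w) z
        rw [h4, h2, hx1]
        simp
      have h5 : (1 : ℝ) ≤ ‖((‖w‖⁻¹ : ℝ) : ℂ) • w - z‖ ^ 2 := by
        rw [h3]; nlinarith [sq_nonneg ‖z‖]
      nlinarith [norm_nonneg (((‖w‖⁻¹ : ℝ) : ℂ) • w - z)]
  choose x hxV hx1 hxd using hex
  have hCV : ∀ n y, y ∈ V n → C y ∈ V n := by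
    intro n y hy
    rw [hVmem] at hy ⊢
    have h1 : C y = L y - y := by
      rw [hL]; simp
    rw [h1, map_sub, hy, sub_zero]
    have h2 : (L ^ n : H →L[ℂ] H) (L y) = L ((L ^ n : H →L[ℂ] H) y) := by
      have : (L ^ n * L : H →L[ℂ] H) y = (L * L ^ n : H →L[ℂ] H) y := by
        rw [← pow_succ, ← pow_succ']
      exact this
    rw [h2, hy, map_zero]
  have hLV : ∀ n y, y ∈ V (n + 1) → L y ∈ V n := by
    intro n y hy
    rw [hVmem] at hy ⊢
    rw [pow_succ, mul_apply_eq_comp] at hy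
    exact hy
  have hsep : ∀ m n, m < n → 1 ≤ ‖C (x n) - C (x m)‖ := by
    intro m n hmn
    have h1 : C (x n) = L (x n) - x n := by rw [hL]; simp
    have h2 : C (x m) ∈ V n := hVmono hmn (hCV _ _ (hxV m))
    have h3 : L (x n) - C (x m) ∈ V n := (V n).sub_mem (hLV _ _ (hxV n)) h2
    have h4 := hxd n _ h3
    have h5 : C (x n) - C (x m) = -(x n - (L (x n) - C (x m))) := by rw [h1]; abel
    rw [h5, norm_neg]
    exact h4
  obtain ⟨Kc, hKc, hKc'⟩ := hC.image_closedBall_subset_compact (1 : ℝ)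
  obtain ⟨y, -, φ, hφ, hφy⟩ := hKc.tendsto_subseq (x := fun n => C (x n))
    (fun n => hKc' ⟨x n, by simp [hx1], rfl⟩)
  have hcau := hφy.cauchySeq
  rw [Metric.cauchySeq_iff'] at hcau
  obtain ⟨N, hN⟩ := hcau 1 one_pos
  have h1 := hN (N + 1) (Nat.le_succ N)
  rw [dist_eq_norm] at h1
  have h2 := hsep (φ N) (φ (N + 1)) (hφ (Nat.lt_succ_self N))
  simp only [Function.comp_apply] at h1
  linarith

/-- `T = S + compact` with `S` bijective has index zero -/
lemma index_zero' {T S D : H →L[ℂ] H} (hS : Function.Bijective S) (hD : IsCompactOperator D)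
    (hT : T = S + D) :
    Module.finrank ℂ (LinearMap.ker T.toLinearMap)
      = Module.finrank ℂ (H ⧸ LinearMap.range T.toLinearMap) := by
  let E : H ≃L[ℂ] H := ContinuousLinearEquiv.ofBijective S
    (LinearMap.ker_eq_bot.2 hS.1) (LinearMap.range_eq_top.2 hS.2)
  have hES : ∀ x, E x = S x := fun x => rfl
  let C : H →L[ℂ] H := (E.symm : H →L[ℂ] H) ∘L D
  have hC : IsCompactOperator C := hD.clm_comp (E.symm : H →L[ℂ] H)
  obtain ⟨-, hind⟩ := index_zero hC
  have hTE : ∀ x, T x = E ((1 + C : H →L[ℂ] H) x) := by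
    intro x
    have h1 : (1 + C : H →L[ℂ] H) x = x + E.symm (D x) := rfl
    rw [h1, map_add, E.apply_symm_apply, hT]
    rfl
  have hker : LinearMap.ker T.toLinearMap = LinearMap.ker (1 + C : H →L[ℂ] H).toLinearMap := by
    ext x
    rw [LinearMap.mem_ker, LinearMap.mem_ker]
    change T x = 0 ↔ (1 + C : H →L[ℂ] H) x = 0
    rw [hTE, map_eq_zero_iff _ E.injective]
  have hran : (LinearMap.range (1 + C : H →L[ℂ] H).toLinearMap).map
      (E.toLinearEquiv : H →ₗ[ℂ] H) = LinearMap.range T.toLinearMap := by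
    ext y
    constructor
    · rintro ⟨z, ⟨x, rfl⟩, rfl⟩
      exact ⟨x, hTE x⟩
    · rintro ⟨x, rfl⟩
      exact ⟨(1 + C : H →L[ℂ] H) x, ⟨x, rfl⟩, (hTE x).symm⟩
  rw [hker, hind]
  exact LinearEquiv.finrank_eq (Submodule.Quotient.equiv _ _ E.toLinearEquiv hran)

/-- an injective endomorphism of a finite-dimensional space is killed by a polynomial with
nonzero constant term -/
lemma exists_poly {V : Type*} [AddCommGroup V] [Module ℂ V] [FiniteDimensional ℂ V]
    (f : Module.End ℂ V) (hf : Function.Injective f) :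
    ∃ p : ℂ[X], p.coeff 0 ≠ 0 ∧ ∀ x, aeval f p x = 0 := by
  refine ⟨minpoly ℂ f, ?_, fun x => ?_⟩
  · intro h0
    have h1 : (minpoly ℂ f).IsRoot 0 := by
      rw [Polynomial.IsRoot, ← Polynomial.coeff_zero_eq_eval_zero]
      exact h0
    have h2 := Module.End.hasEigenvalue_iff_isRoot.2 h1
    obtain ⟨v, hv⟩ := h2.exists_hasEigenvector
    have h3 : f v = f 0 := by
      rw [hv.apply_eq_smul, zero_smul, map_zero]
    exact hv.2 (hf h3)
  · rw [minpoly.aeval]; rfl

omit [CompleteSpace H] in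
/-- the polynomial in `K` -/
theorem exists_L {A K : H →L[ℂ] H} (hN : FiniteDimensional ℂ (LinearMap.ker A.toLinearMap))
    (hW : FiniteDimensional ℂ (H ⧸ LinearMap.range A.toLinearMap))
    (hK : IsCompactOperator K) (hcomm : ∀ x, A (K x) = K (A x))
    (h1 : ∀ x, A x = 0 → K x = 0 → x = 0) (h2 : ∀ h, ∃ x y, A x + K y = h) :
    ∃ C : H →L[ℂ] H, IsCompactOperator C ∧
      (∀ x, A ((1 + C : H →L[ℂ] H) x) = (1 + C : H →L[ℂ] H) (A x)) ∧
      (∀ x, A x = 0 → (1 + C : H →L[ℂ] H) x = 0) ∧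
      (∀ x, ∃ y, (1 + C : H →L[ℂ] H) x = A y) := by
  set N := LinearMap.ker A.toLinearMap with hNd
  set R := LinearMap.range A.toLinearMap with hRd
  have hKN : ∀ x ∈ N, K.toLinearMap x ∈ N := by
    intro x hx
    rw [hNd, LinearMap.mem_ker] at hx ⊢
    change A (K x) = 0
    have hx' : A x = 0 := hx
    rw [hcomm, hx', map_zero]
  have hKR : R ≤ R.comap K.toLinearMap := by
    rintro y ⟨x, rfl⟩
    exact ⟨K x, hcomm x⟩
  let f : Module.End ℂ N := K.toLinearMap.restrict hKN
  let g : Module.End ℂ (H ⧸ R) := R.mapQ R K.toLinearMap hKR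
  have hf : Function.Injective f := by
    rw [injective_iff_map_eq_zero]
    intro x hx
    have h3 : K (x : H) = 0 := congrArg Subtype.val hx
    exact Subtype.ext (h1 x (LinearMap.mem_ker.1 x.2) h3)
  have hg : Function.Injective g := by
    rw [LinearMap.injective_iff_surjective]
    intro q
    obtain ⟨h, rfl⟩ := Submodule.Quotient.mk_surjective R q
    obtain ⟨x, y, hxy⟩ := h2 h
    refine ⟨Submodule.Quotient.mk y, ?_⟩
    change R.mapQ R K.toLinearMap hKR (Submodule.Quotient.mk y) = _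
    rw [Submodule.mapQ_apply]
    rw [Submodule.Quotient.eq]
    refine ⟨-x, ?_⟩
    change A (-x) = K y - h
    rw [← hxy, map_neg]; abel
  obtain ⟨p, hp0, hp⟩ := exists_poly f hf
  obtain ⟨q, hq0, hq⟩ := exists_poly g hg
  set r : ℂ[X] := Polynomial.C ((p * q).coeff 0)⁻¹ * (p * q) with hr
  have hpq0 : (p * q).coeff 0 ≠ 0 := by
    rw [Polynomial.mul_coeff_zero]
    exact mul_ne_zero hp0 hq0
  have hr0 : r.coeff 0 = 1 := by
    rw [hr, Polynomial.coeff_C_mul, inv_mul_cancel₀ hpq0]
  -- aeval in the algebra of bounded operators versus linear maps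
  have hcoe : ∀ (s : ℂ[X]) (x : H), (aeval K s : H →L[ℂ] H) x = aeval K.toLinearMap s x := by
    intro s x
    induction s using Polynomial.induction_on' generalizing x with
    | add s t hs ht => simp [hs, ht]
    | monomial n a =>
      have hn : ∀ n : ℕ, ∀ x, (K ^ n : H →L[ℂ] H) x = (K.toLinearMap ^ n : Module.End ℂ H) x := by
        intro n
        induction n with
        | zero => intro x; simp
        | succ n ih =>
          intro x
          rw [pow_succ, pow_succ, mul_apply_eq_comp, Module.End.mul_apply, ih]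
          rfl
      rw [aeval_monomial, aeval_monomial, mul_apply_eq_comp, Module.End.mul_apply, hn]
      rfl
  have hkill : ∀ x, A x = 0 → aeval K.toLinearMap r x = 0 := by
    intro x hx
    have h3 : aeval K.toLinearMap p x = 0 := by
      have h4 := aeval_intertwine N.subtype f K.toLinearMap (fun _ => rfl) p ⟨x, hx⟩
      rw [hp] at h4
      simpa using h4
    rw [hr, mul_comm p q, ← mul_assoc, map_mul, Module.End.mul_apply, h3, map_zero]
  have hrange : ∀ x, aeval K.toLinearMap r x ∈ R := by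
    intro x
    have h3 : aeval K.toLinearMap q x ∈ R := by
      have h4 := aeval_intertwine R.mkQ K.toLinearMap g (fun _ => rfl) q x
      rw [hq] at h4
      exact (Submodule.Quotient.mk_eq_zero R).1 h4.symm
    have h5 : ∀ (s : ℂ[X]) (y : H), y ∈ R → aeval K.toLinearMap s y ∈ R := by
      rintro s y ⟨z, rfl⟩
      have h6 := aeval_intertwine A.toLinearMap K.toLinearMap K.toLinearMap
        (fun x => (hcomm x).symm) s z
      rw [h6]
      exact LinearMap.mem_range_self _ _
    rw [hr, ← mul_assoc, map_mul, Module.End.mul_apply]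
    exact h5 _ _ h3
  let C : H →L[ℂ] H := K ∘L (aeval K r.divX : H →L[ℂ] H)
  have hC : IsCompactOperator C := hK.comp_clm (aeval K r.divX : H →L[ℂ] H)
  have hL : (1 + C : H →L[ℂ] H) = aeval K r := by
    have h3 := Polynomial.X_mul_divX_add r
    rw [hr0] at h3
    conv_rhs => rw [← h3]
    rw [map_add, map_mul, aeval_X, aeval_C, map_one, add_comm]
    rfl
  refine ⟨C, hC, ?_, ?_, ?_⟩
  · intro x
    rw [hL, hcoe, hcoe]
    have h6 := aeval_intertwine A.toLinearMap K.toLinearMap K.toLinearMap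
      (fun x => (hcomm x).symm) r x
    exact h6.symm
  · intro x hx
    rw [hL, hcoe]
    exact hkill x hx
  · intro x
    rw [hL, hcoe]
    obtain ⟨y, hy⟩ := hrange x
    exact ⟨y, hy.symm⟩

/-- decomposition `A = S + finite rank` with `S` bijective -/
theorem exists_S {A C : H →L[ℂ] H} (hC : IsCompactOperator C)
    (hAL : ∀ x, A ((1 + C : H →L[ℂ] H) x) = (1 + C : H →L[ℂ] H) (A x))
    (hker : ∀ x, A x = 0 → (1 + C : H →L[ℂ] H) x = 0)
    (hran : ∀ x, ∃ y, (1 + C : H →L[ℂ] H) x = A y) :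
    ∃ S D : H →L[ℂ] H, Function.Bijective S ∧ IsCompactOperator D ∧ A = S + D := by
  obtain ⟨p, hp⟩ := finite_ascent hC
  obtain ⟨D, hD, hpow⟩ := pow_one_add hC p
  set L : H →L[ℂ] H := 1 + C with hL
  set E : Submodule ℂ H := LinearMap.ker (L ^ p : H →L[ℂ] H).toLinearMap with hE
  have hEmem : ∀ x, x ∈ E ↔ (L ^ p : H →L[ℂ] H) x = 0 := fun x => LinearMap.mem_ker
  have hEfin : FiniteDimensional ℂ E := by
    rw [hE, hpow]
    exact finite_ker hD
  have hALp : ∀ n : ℕ, ∀ x, A ((L ^ n : H →L[ℂ] H) x) = (L ^ n : H →L[ℂ] H) (A x) := by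
    intro n
    induction n with
    | zero => intro x; simp
    | succ n ih =>
      intro x
      rw [pow_succ, mul_apply_eq_comp, ih, hAL, mul_apply_eq_comp]
  have hstep : ∀ x, (L ^ p : H →L[ℂ] H) (L x) = 0 → (L ^ p : H →L[ℂ] H) x = 0 := by
    intro x hx
    apply hp
    rw [pow_succ, mul_apply_eq_comp]
    exact hx
  have hcommL : ∀ x, L ((L ^ p : H →L[ℂ] H) x) = (L ^ p : H →L[ℂ] H) (L x) := by
    intro x
    have : (L * L ^ p : H →L[ℂ] H) x = (L ^ p * L : H →L[ℂ] H) x := by
      rw [← pow_succ, ← pow_succ']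
    exact this
  -- A is injective modulo E
  have hAE : ∀ x, A x ∈ E → x ∈ E := by
    intro x hx
    rw [hEmem] at hx ⊢
    rw [← hALp] at hx
    have h1 := hker _ hx
    rw [hcommL] at h1
    exact hstep x h1
  have hAE' : ∀ x ∈ E, A x ∈ E := by
    intro x hx
    rw [hEmem] at hx ⊢
    rw [← hALp, hx, map_zero]
  -- the corrected operators
  have hcorr : ∀ B : H →L[ℂ] H, IsCompactOperator
      ((1 - B) ∘L (E.subtypeL ∘L E.orthogonalProjectionOnto) : H →L[ℂ] H) := by
    intro B
    exact (compact_of_finrange E E.orthogonalProjectionOnto E.subtypeL).clm_comp (1 - B)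
  have hBapp : ∀ (B : H →L[ℂ] H) (x : H),
      (B + (1 - B) ∘L (E.subtypeL ∘L E.orthogonalProjectionOnto) : H →L[ℂ] H) x
        = B (x - E.starProjection x) + E.starProjection x := by
    intro B x
    change B x + (E.starProjection x - B (E.starProjection x)) = _
    rw [map_sub]; abel
  have hPmem : ∀ x, E.starProjection x ∈ E := fun x => Submodule.starProjection_apply_mem E x
  have hinj : ∀ B : H →L[ℂ] H, (∀ x, B x ∈ E → x ∈ E) → Function.Injective
      (B + (1 - B) ∘L (E.subtypeL ∘L E.orthogonalProjectionOnto) : H →L[ℂ] H) := by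
    intro B hB
    rw [injective_iff_map_eq_zero]
    intro x hx
    rw [hBapp] at hx
    have h3 : B (x - E.starProjection x) = -E.starProjection x := eq_neg_of_add_eq_zero_left hx
    have h4 : x - E.starProjection x ∈ E := hB _ (by rw [h3]; exact E.neg_mem (hPmem x))
    have h5 : x - E.starProjection x ∈ Eᗮ := Submodule.sub_starProjection_mem_orthogonal x
    have h6 : x - E.starProjection x = 0 :=
      inner_self_eq_zero.1 (Submodule.inner_right_of_mem_orthogonal h4 h5)
    rw [h6, map_zero] at h3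
    have h7 : E.starProjection x = 0 := neg_eq_zero.1 h3.symm
    rw [h7, sub_zero] at h6
    exact h6
  -- surjectivity of L modulo E
  have hLsurj : ∀ h, ∃ x, L x - h ∈ E := by
    have hcomp : IsCompactOperator
        (C + (1 - L) ∘L (E.subtypeL ∘L E.orthogonalProjectionOnto) : H →L[ℂ] H) :=
      hC.add (hcorr L)
    have heq : (1 + (C + (1 - L) ∘L (E.subtypeL ∘L E.orthogonalProjectionOnto)) : H →L[ℂ] H)
        = L + (1 - L) ∘L (E.subtypeL ∘L E.orthogonalProjectionOnto) := by
      rw [← add_assoc]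
    have hi := hinj L (fun x hx => (hEmem x).2 (hstep x ((hEmem _).1 hx)))
    rw [← heq] at hi
    have hs := surj_of_inj hcomp hi
    intro h
    obtain ⟨x, hx⟩ := hs h
    rw [heq, hBapp] at hx
    refine ⟨x - E.starProjection x, ?_⟩
    rw [← hx]
    have : L (x - E.starProjection x) - (L (x - E.starProjection x) + E.starProjection x)
        = -E.starProjection x := by abel
    rw [this]
    exact E.neg_mem (hPmem x)
  have hAsurj : ∀ h, ∃ y, A y - h ∈ E := by
    intro h
    obtain ⟨x, hx⟩ := hLsurj h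
    obtain ⟨y, hy⟩ := hran x
    exact ⟨y, by rw [← hy]; exact hx⟩
  refine ⟨A + (1 - A) ∘L (E.subtypeL ∘L E.orthogonalProjectionOnto),
    -((1 - A) ∘L (E.subtypeL ∘L E.orthogonalProjectionOnto)), ⟨hinj A hAE, ?_⟩, (hcorr A).neg, ?_⟩
  · intro h
    obtain ⟨y, hy⟩ := hAsurj h
    have h3 : A (E.starProjection y) ∈ E := hAE' _ (hPmem y)
    set z : H := h - A (y - E.starProjection y) with hz
    have hzE : z ∈ E := by
      have : z = -(A y - h) + A (E.starProjection y) := by rw [hz, map_sub]; abel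
      rw [this]
      exact E.add_mem (E.neg_mem hy) h3
    have h5 : y - E.starProjection y ∈ Eᗮ := Submodule.sub_starProjection_mem_orthogonal y
    refine ⟨z + (y - E.starProjection y), ?_⟩
    have h6 : E.starProjection (z + (y - E.starProjection y)) = z := by
      rw [map_add, Submodule.starProjection_eq_self_iff.2 hzE,
        (Submodule.starProjection_apply_eq_zero_iff E).2 h5, add_zero]
    rw [hBapp, h6, add_sub_cancel_left, hz]
    abel
  · abel

/-- the index theorem behind the answer -/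
theorem index_eq {T K₁ K : H →L[ℂ] H} (hT : IsFredholmOp T) (hK₁ : IsCompactOperator K₁)
    (hK : IsCompactOperator K) (hcomm : ∀ x, (T + K₁) (K x) = K ((T + K₁) x))
    (h1 : ∀ x, (T + K₁) x = 0 → K x = 0 → x = 0) (h2 : ∀ h, ∃ x y, (T + K₁) x + K y = h) :
    Module.finrank ℂ (LinearMap.ker T.toLinearMap)
      = Module.finrank ℂ (H ⧸ LinearMap.range T.toLinearMap) := by
  obtain ⟨Q, C₁, C₂, hC₁, hC₂, hTQ, hQT⟩ := exists_quasi_inv hT
  set A : H →L[ℂ] H := T + K₁ with hA
  have hN : FiniteDimensional ℂ (LinearMap.ker A.toLinearMap) := by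
    have h3 : IsCompactOperator (C₂ + Q ∘L K₁ : H →L[ℂ] H) := hC₂.add (hK₁.clm_comp Q)
    have h4 := finite_ker h3
    have h5 : LinearMap.ker A.toLinearMap
        ≤ LinearMap.ker (1 + (C₂ + Q ∘L K₁) : H →L[ℂ] H).toLinearMap := by
      intro x hx
      have hx' : A x = 0 := hx
      have h6 : (1 + (C₂ + Q ∘L K₁) : H →L[ℂ] H) = Q ∘L A := by
        rw [← add_assoc, ← hQT, hA, ContinuousLinearMap.comp_add]
      change (1 + (C₂ + Q ∘L K₁) : H →L[ℂ] H) x = 0
      rw [h6, ContinuousLinearMap.comp_apply, hx', map_zero]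
    exact Submodule.finiteDimensional_of_le h5
  have hW : FiniteDimensional ℂ (H ⧸ LinearMap.range A.toLinearMap) := by
    have h3 : IsCompactOperator (C₁ + K₁ ∘L Q : H →L[ℂ] H) := hC₁.add (hK₁.comp_clm Q)
    have h4 := (index_zero h3).1
    have h5 : LinearMap.range (1 + (C₁ + K₁ ∘L Q) : H →L[ℂ] H).toLinearMap
        ≤ LinearMap.range A.toLinearMap := by
      rintro y ⟨x, rfl⟩
      have h6 : (1 + (C₁ + K₁ ∘L Q) : H →L[ℂ] H) = A ∘L Q := by
        rw [← add_assoc, ← hTQ, hA, ContinuousLinearMap.add_comp]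
      refine ⟨Q x, ?_⟩
      have h7 : (1 + (C₁ + K₁ ∘L Q) : H →L[ℂ] H) x = A (Q x) := by rw [h6]; rfl
      exact h7.symm
    exact Module.Finite.of_surjective (Submodule.factor h5) (Submodule.factor_surjective h5)
  obtain ⟨C, hC, hAL, hker, hran⟩ := exists_L hN hW hK hcomm h1 h2
  obtain ⟨S, D, hS, hD, hAS⟩ := exists_S hC hAL hker hran
  have hTS : T = S + (D + -K₁) := by
    rw [← add_assoc, ← hAS, hA]; abel
  exact index_zero' hS (hD.add hK₁.neg) hTS

end Pool.Agent.W39.FredPair
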